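import Pool.Agent.H884R2.Sko.Density

set_option autoImplicit false

/-!
Counting, modulo a prime, the pairs (coefficients, initial values) whose orbit avoids a
hypersurface.
-/

namespace Pool.Agent.TH838.SK

open Finset Pool.Agent.H884R2.Sko

/-- `(p - 1) / k` elements of `ZMod p` with `a ^ ((p - 1) / k) = 1`. -/
theorem exists_powers (p : ℕ) [Fact p.Prime] (k T : ℕ) (hk : 1 ≤ k) (hT : k * T = p - 1) :
    ∃ Q : Finset (ZMod p), Q.card = T ∧ ∀ a ∈ Q, a ^ T = 1 := by
  classical
  have hp2 : 2 ≤ p := (Fact.out : p.Prime).two_le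
  obtain ⟨g, hg⟩ := IsCyclic.exists_generator (α := (ZMod p)ˣ)
  have hord : orderOf g = p - 1 := by
    rw [orderOf_eq_card_of_forall_mem_zpowers hg, Nat.card_eq_fintype_card, ZMod.card_units]
  refine ⟨(range T).image (fun i => (((g ^ (k * i) : (ZMod p)ˣ)) : ZMod p)), ?_, ?_⟩
  · rw [Finset.card_image_of_injOn, Finset.card_range]
    intro i hi j hj h
    have h1 : g ^ (k * i) = g ^ (k * j) := Units.ext h
    have hi' : i < T := Finset.mem_range.1 (by simpa using hi)
    have hj' : j < T := Finset.mem_range.1 (by simpa using hj)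
    have hi2 : k * i < p - 1 := by
      rw [← hT]
      exact Nat.mul_lt_mul_of_pos_left hi' (by omega)
    have hj2 : k * j < p - 1 := by
      rw [← hT]
      exact Nat.mul_lt_mul_of_pos_left hj' (by omega)
    have h2 := pow_injOn_Iio_orderOf (x := g) (by rw [Set.mem_Iio, hord]; exact hi2)
      (by rw [Set.mem_Iio, hord]; exact hj2) h1
    exact Nat.eq_of_mul_eq_mul_left (by omega) h2
  · intro a ha
    rw [Finset.mem_image] at ha
    obtain ⟨i, _, rfl⟩ := ha
    rw [← Units.val_pow_eq_pow_val, ← pow_mul]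
    have h1 : k * i * T = (p - 1) * i := by rw [← hT]; ring
    rw [h1, pow_mul, ← hord, pow_orderOf_eq_one, one_pow, Units.val_one]

theorem seq_add {R : Type} [CommRing R] {d : ℕ} (c a : Fin d → R) (n m : ℕ) :
    seq c (fun i => seq c a (n + i)) m = seq c a (n + m) := by
  symm
  apply eq_seq c (fun i : Fin d => seq c a (n + i)) (fun m => seq c a (n + m))
  · intro m
    have h := seq_sol c a (n + m)
    rw [← add_assoc, h]
    refine Finset.sum_congr rfl fun i _ => ?_
    rw [add_assoc]
  · intro i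
    rfl

section

variable {K : Type} [Field K]

theorem shift_inj (d T : ℕ) (hT : 0 < T) (S : Finset K) (hS : S.card = d)
    (hST : ∀ a ∈ S, a ^ T = 1) (n : ℕ) :
    Function.Injective (fun a : Fin d → K => fun i : Fin d => seq (coef d S) a (n + i)) := by
  intro a a' h
  simp only at h
  funext i
  obtain ⟨m, hm⟩ : ∃ m, n + m = n * T + i := ⟨n * T + i - n, by
    have : n ≤ n * T := Nat.le_mul_of_pos_right n hT
    omega⟩
  have h1 : ∀ b : Fin d → K, seq (coef d S) b (n * T + i) = b i := by
    intro b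
    rw [seq_mod d T S hS hST, Nat.mul_comm n T, Nat.mul_add_mod, ← seq_mod d T S hS hST,
      seq_init]
  rw [← h1 a, ← h1 a', ← hm, ← seq_add, ← seq_add, h]

end

/-! ### Systems of recurrences -/

/-- index set of the coefficients, and of the initial values, of `s` recurrences of orders `d j` -/
abbrev Ix {s : ℕ} (d : Fin s → ℕ) : Type := (j : Fin s) × Fin (d j)

/-- the states at time `n` of the sequences with coefficients `c` (in the order of `seq`) and
initial values `a` -/
def st {R : Type} [CommRing R] {s : ℕ} {d : Fin s → ℕ} (c a : Ix d → R) (n : ℕ) : Ix d → R :=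
  fun q => seq (fun i => c ⟨q.1, i⟩) (fun i => a ⟨q.1, i⟩) (n + q.2)

/-- reversal of the coefficients -/
def rv {R : Type} {s : ℕ} {d : Fin s → ℕ} (c : Ix d → R) : Ix d → R :=
  fun q => c ⟨q.1, Fin.rev q.2⟩

theorem rv_rv {R : Type} {s : ℕ} {d : Fin s → ℕ} (c : Ix d → R) : rv (rv c) = c := by
  funext q
  simp [rv]

section

variable {K : Type} [Field K] {s : ℕ} {d : Fin s → ℕ}

/-- the coefficients of the recurrences with characteristic roots `S j` -/
noncomputable def cf (d : Fin s → ℕ) (S : Fin s → Finset K) : Ix d → K :=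
  fun q => coef (d q.1) (S q.1) q.2

theorem cf_inj {S S' : Fin s → Finset K} (hS : ∀ j, (S j).card = d j)
    (hS' : ∀ j, (S' j).card = d j) (h : cf d S = cf d S') : S = S' := by
  funext j
  apply coef_inj (hS j) (hS' j)
  funext i
  exact congrFun h ⟨j, i⟩

theorem st_inj (T : ℕ) (hT : 0 < T) (S : Fin s → Finset K) (hS : ∀ j, (S j).card = d j)
    (hST : ∀ j, ∀ a ∈ S j, a ^ T = 1) (n : ℕ) :
    Function.Injective (fun a : Ix d → K => st (cf d S) a n) := by
  intro a a' h
  simp only at h
  funext ⟨j, i⟩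
  have h1 : (fun i => a ⟨j, i⟩) = fun i => a' ⟨j, i⟩ := by
    apply shift_inj (d j) T hT (S j) (hS j) (hST j) n
    funext i
    exact congrFun h ⟨j, i⟩
  exact congrFun h1 i

theorem st_mod (T : ℕ) (S : Fin s → Finset K) (hS : ∀ j, (S j).card = d j)
    (hST : ∀ j, ∀ a ∈ S j, a ^ T = 1) (a : Ix d → K) (n : ℕ) :
    st (cf d S) a (n % T) = st (cf d S) a n := by
  funext ⟨j, i⟩
  change seq (coef (d j) (S j)) _ _ = seq (coef (d j) (S j)) _ _
  rw [seq_mod (d j) T (S j) (hS j) (hST j), seq_mod (d j) T (S j) (hS j) (hST j) _ (n + i),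
    Nat.mod_add_mod]

theorem st_periodic (T : ℕ) (S : Fin s → Finset K) (hS : ∀ j, (S j).card = d j)
    (hST : ∀ j, ∀ a ∈ S j, a ^ T = 1) (a : Ix d → K) (n : ℕ) :
    st (cf d S) a (n + T) = st (cf d S) a n := by
  rw [← st_mod T S hS hST a (n + T), Nat.add_mod_right, st_mod T S hS hST]

open Classical in
theorem card_bad' [Fintype K] (T : ℕ) (hT : 0 < T) (S : Fin s → Finset K)
    (hS : ∀ j, (S j).card = d j) (hST : ∀ j, ∀ a ∈ S j, a ^ T = 1) (h : (Ix d → K) → Prop) :
    ((univ : Finset (Ix d → K)).filter (fun a => ∃ n, h (st (cf d S) a n))).card ≤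
      T * ((univ : Finset (Ix d → K)).filter h).card := by
  have hsub : univ.filter (fun a : Ix d → K => ∃ n, h (st (cf d S) a n)) ⊆
      (range T).biUnion (fun n => univ.filter (fun a => h (st (cf d S) a n))) := by
    intro v hv
    rw [Finset.mem_filter] at hv
    obtain ⟨_, n, hn⟩ := hv
    rw [Finset.mem_biUnion]
    refine ⟨n % T, Finset.mem_range.2 (Nat.mod_lt _ hT), ?_⟩
    rw [Finset.mem_filter]
    refine ⟨mem_univ _, ?_⟩
    rw [st_mod T S hS hST]
    exact hn
  refine (Finset.card_le_card hsub).trans (Finset.card_biUnion_le.trans ?_)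
  calc ∑ n ∈ range T, (univ.filter (fun a : Ix d → K => h (st (cf d S) a n))).card ≤
      ∑ _n ∈ range T, (univ.filter h).card := by
        refine Finset.sum_le_sum fun n _ => ?_
        apply Finset.card_le_card_of_injOn (fun a : Ix d → K => st (cf d S) a n)
        · intro a ha
          rw [Finset.mem_coe, Finset.mem_filter] at ha ⊢
          exact ⟨mem_univ _, ha.2⟩
        · exact (st_inj T hT S hS hST n).injOn
    _ = _ := by rw [Finset.sum_const, Finset.card_range, smul_eq_mul]

end

/-! ### Polynomials with bounded degrees -/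

/-- the value at `y` of the polynomial with coefficients `w`, of degree at most `r` in each
variable -/
def ev1 {R ι : Type} [CommRing R] [Fintype ι] [DecidableEq ι] {r : ℕ}
    (w : (ι → Fin (r + 1)) → R) (y : ι → R) : R :=
  ∑ e, w e * ∏ i, y i ^ (e i : ℕ)

/-- the exponent as a finitely supported function -/
noncomputable def fe {d r : ℕ} (e : Fin d → Fin (r + 1)) : Fin d →₀ ℕ :=
  Finsupp.equivFunOnFinite.symm fun i => (e i : ℕ)

theorem fe_inj {d r : ℕ} : Function.Injective (fe : (Fin d → Fin (r + 1)) → _) := by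
  intro e e' h
  funext i
  apply Fin.ext
  have := DFunLike.congr_fun h i
  simpa [fe] using this

theorem card_zero_fin {K : Type} [Field K] [Fintype K] [DecidableEq K] {d r : ℕ}
    (w : (Fin d → Fin (r + 1)) → K) (hw : w ≠ 0) :
    ((univ : Finset (Fin d → K)).filter (fun y => ev1 w y = 0)).card * Fintype.card K ≤
      d * r * Fintype.card K ^ d := by
  set P : MvPolynomial (Fin d) K := ∑ e, MvPolynomial.monomial (fe e) (w e) with hP
  have hev : ∀ y, MvPolynomial.eval y P = ev1 w y := by
    intro y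
    rw [hP, map_sum]
    unfold ev1
    refine Finset.sum_congr rfl fun e _ => ?_
    rw [MvPolynomial.eval_monomial, Finsupp.prod_fintype _ _ (fun i => pow_zero _)]
    rfl
  have hP0 : P ≠ 0 := by
    obtain ⟨e₀, he₀⟩ := Function.ne_iff.1 hw
    intro h
    apply he₀
    have h1 : MvPolynomial.coeff (fe e₀) P = w e₀ := by
      rw [hP, MvPolynomial.coeff_sum, Finset.sum_eq_single e₀]
      · rw [MvPolynomial.coeff_monomial, if_pos rfl]
      · intro e _ he
        rw [MvPolynomial.coeff_monomial, if_neg (fun h => he (fe_inj h))]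
      · intro h
        exact absurd (mem_univ _) h
    rw [← h1, h, MvPolynomial.coeff_zero]
    rfl
  have hdeg : P.totalDegree ≤ d * r := by
    rw [hP]
    apply MvPolynomial.totalDegree_finsetSum_le
    intro e _
    refine (MvPolynomial.totalDegree_monomial_le _ _).trans ?_
    rw [Finsupp.sum_fintype _ _ (fun i => rfl)]
    calc ∑ i, id ((fe e) i) ≤ ∑ _i : Fin d, r := Finset.sum_le_sum fun i _ => by
          simp only [fe, Finsupp.equivFunOnFinite_symm_apply_apply, id]
          have := (e i).2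
          omega
      _ = d * r := by simp
  have h1 := MvPolynomial.schwartz_zippel_totalDegree hP0 (univ : Finset K)
  have hq : 0 < Fintype.card K := Fintype.card_pos
  have e1 : ({f ∈ Fintype.piFinset (fun _ : Fin d => (univ : Finset K)) |
      MvPolynomial.eval f P = 0}) =
      (univ : Finset (Fin d → K)).filter (fun y => ev1 w y = 0) := by
    ext y
    simp [hev]
  rw [e1, Finset.card_univ, div_le_div_iff₀ (by positivity) (by positivity)] at h1
  have h2 : ((univ : Finset (Fin d → K)).filter (fun y => ev1 w y = 0)).card *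
      Fintype.card K ≤ P.totalDegree * Fintype.card K ^ d := by
    exact_mod_cast h1
  exact h2.trans (Nat.mul_le_mul_right _ hdeg)

theorem card_zero {K ι : Type} [Field K] [Fintype K] [DecidableEq K] [Fintype ι] [DecidableEq ι]
    {r : ℕ} (w : (ι → Fin (r + 1)) → K) (hw : w ≠ 0) :
    ((univ : Finset (ι → K)).filter (fun y => ev1 w y = 0)).card * Fintype.card K ≤
      Fintype.card ι * r * Fintype.card K ^ Fintype.card ι := by
  set e : ι ≃ Fin (Fintype.card ι) := Fintype.equivFin ι with he
  set w' : (Fin (Fintype.card ι) → Fin (r + 1)) → K := fun f => w (fun i => f (e i)) with hw'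
  have hw'0 : w' ≠ 0 := by
    obtain ⟨f, hf⟩ := Function.ne_iff.1 hw
    intro h
    apply hf
    have := congrFun h (fun i => f (e.symm i))
    simpa [hw'] using this
  have hev : ∀ y : ι → K, ev1 w y = ev1 w' (fun i => y (e.symm i)) := by
    intro y
    unfold ev1
    rw [← Equiv.sum_comp (Equiv.arrowCongr e (Equiv.refl (Fin (r + 1))))]
    refine Finset.sum_congr rfl fun f _ => ?_
    rw [← Equiv.prod_comp e]
    simp [hw']
  refine le_trans (Nat.mul_le_mul_right _ ?_) (card_zero_fin w' hw'0)
  apply Finset.card_le_card_of_injOn (fun (y : ι → K) i => y (e.symm i))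
  · intro y hy
    rw [Finset.mem_coe, Finset.mem_filter] at hy ⊢
    exact ⟨mem_univ _, by rw [← hev]; exact hy.2⟩
  · intro y _ y' _ h
    funext i
    have := congrFun h (e i)
    simpa using this

/-- the value at `(x, y)` of the polynomial with coefficients `w`, of degree at most `r` in each
variable -/
def pv {R ι : Type} [CommRing R] [Fintype ι] [DecidableEq ι] {r : ℕ}
    (w : (ι → Fin (r + 1)) × (ι → Fin (r + 1)) → R) (x y : ι → R) : R :=
  ∑ e, w e * ((∏ i, x i ^ (e.1 i : ℕ)) * ∏ i, y i ^ (e.2 i : ℕ))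

theorem pv_eq {R ι : Type} [CommRing R] [Fintype ι] [DecidableEq ι] {r : ℕ}
    (w : (ι → Fin (r + 1)) × (ι → Fin (r + 1)) → R) (x y : ι → R) :
    pv w x y = ev1 (fun e' => ev1 (fun e => w (e, e')) x) y := by
  unfold pv ev1
  rw [Fintype.sum_prod_type, Finset.sum_comm]
  refine Finset.sum_congr rfl fun e' _ => ?_
  rw [Finset.sum_mul]
  refine Finset.sum_congr rfl fun e _ => ?_
  ring

theorem pv_cast {ι : Type} [Fintype ι] [DecidableEq ι] {r : ℕ} (p : ℕ)
    (w : (ι → Fin (r + 1)) × (ι → Fin (r + 1)) → ℤ) (x y : ι → ℤ) :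
    ((pv w x y : ℤ) : ZMod p) =
      pv (fun e => (w e : ZMod p)) (fun i => (x i : ZMod p)) (fun i => (y i : ZMod p)) := by
  simp [pv]

/-- The sequences have period `T` and the orbit avoids the hypersurface. -/
def GoodW {p r s : ℕ} {d : Fin s → ℕ} (T : ℕ)
    (w : (Ix d → Fin (r + 1)) × (Ix d → Fin (r + 1)) → ZMod p) (c a : Ix d → ZMod p) : Prop :=
  (∀ n, st c a (n + T) = st c a n) ∧ ∀ n, pv w (rv c) (st c a n) ≠ 0

open Classical in
theorem card_goodW (p : ℕ) [Fact p.Prime] {s : ℕ} (d : Fin s → ℕ) (r k T D : ℕ)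
    (hD : D = Fintype.card (Ix d)) (hk : k = 2 * (D * r + 1)) (hT : k * T = p - 1)
    (hp : k * ((2 * k) ^ D * ∏ j, (d j).factorial) ≤ p) (hp' : ∀ j, 2 * k * d j ≤ p)
    (w : (Ix d → Fin (r + 1)) × (Ix d → Fin (r + 1)) → ZMod p) (hw : w ≠ 0) :
    p ^ (2 * D) ≤ 4 * ((2 * k) ^ D * ∏ j, (d j).factorial) *
      ((univ : Finset ((Ix d → ZMod p) × (Ix d → ZMod p))).filter
        (fun x => GoodW T w x.1 x.2)).card := by
  have hprime : p.Prime := Fact.out
  have hk2 : 2 ≤ k := by omega
  have hp2 : 2 ≤ p := hprime.two_le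
  have hTpos : 0 < T := by
    rcases Nat.eq_zero_or_pos T with h | h
    · rw [h, mul_zero] at hT
      omega
    · exact h
  have hDr : 2 * (D * r) * T ≤ p - 1 := by
    rw [← hT, hk]
    exact Nat.mul_le_mul_right _ (by omega)
  have hDs : D = ∑ j, d j := by
    rw [hD, Fintype.card_sigma]
    simp
  obtain ⟨Q, hQ1, hQ2⟩ := exists_powers p k T (by omega) hT
  obtain ⟨⟨e₁, e₂⟩, he⟩ := Function.ne_iff.1 hw
  -- the coefficient polynomial in `c`
  set g : (Ix d → Fin (r + 1)) → ZMod p := fun e => w (e, e₂) with hg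
  have hg0 : g ≠ 0 := fun h => he (congrFun h e₁)
  set Z := ((univ : Finset (Ix d → ZMod p)).filter (fun y => ev1 g y = 0)).card with hZ
  have hZp : Z * p ≤ D * r * p ^ D := by
    have := card_zero g hg0
    rwa [ZMod.card, ← hD] at this
  set A : Finset (Fin s → Finset (ZMod p)) := Fintype.piFinset fun j => Q.powersetCard (d j)
    with hA
  have hA1 : ∀ S ∈ A, ∀ j, S j ⊆ Q ∧ (S j).card = d j := by
    intro S hS j
    rw [hA, Fintype.mem_piFinset] at hS
    exact Finset.mem_powersetCard.1 (hS j)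
  set F : Finset (Fin s → Finset (ZMod p)) := A.filter (fun S => ev1 g (rv (cf d S)) ≠ 0) with hF
  set good : (Fin s → Finset (ZMod p)) → Finset (Ix d → ZMod p) := fun S =>
    (univ : Finset (Ix d → ZMod p)).filter
      (fun v => ¬ ∃ n, pv w (rv (cf d S)) (st (cf d S) v n) = 0) with hgood
  have hinj : (∑ S ∈ F, (good S).card) ≤
      ((univ : Finset ((Ix d → ZMod p) × (Ix d → ZMod p))).filter
        (fun x => GoodW T w x.1 x.2)).card := by
    rw [← Finset.card_sigma]
    apply Finset.card_le_card_of_injOn (fun x => (cf d x.1, x.2))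
    · intro x hx
      rw [Finset.mem_coe, Finset.mem_sigma] at hx
      rw [Finset.mem_coe, Finset.mem_filter]
      have hx1 := hA1 _ (Finset.mem_filter.1 hx.1).1
      refine ⟨mem_univ _, ?_, ?_⟩
      · intro n
        exact st_periodic T x.1 (fun j => (hx1 j).2) (fun j a ha => hQ2 a ((hx1 j).1 ha)) x.2 n
      · intro n hn
        have := (Finset.mem_filter.1 hx.2).2
        exact this ⟨n, hn⟩
    · rintro ⟨S, v⟩ hx ⟨S', v'⟩ hx' h
      rw [Finset.mem_coe, Finset.mem_sigma] at hx hx'
      simp only [Prod.mk.injEq] at h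
      obtain ⟨h1, h2⟩ := h
      have h3 := cf_inj (fun j => (hA1 _ (Finset.mem_filter.1 hx.1).1 j).2)
        (fun j => (hA1 _ (Finset.mem_filter.1 hx'.1).1 j).2) h1
      simp only at h3
      subst h3
      subst h2
      rfl
  have hgoodcard : ∀ S ∈ F, p ^ D ≤ 2 * (good S).card := by
    intro S hS
    rw [Finset.mem_filter] at hS
    have hS1 := hA1 S hS.1
    set w' : (Ix d → Fin (r + 1)) → ZMod p :=
      fun e' => ev1 (fun e => w (e, e')) (rv (cf d S)) with hw'
    have hw'0 : w' ≠ 0 := fun h => hS.2 (congrFun h e₂)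
    have h1 : ((univ : Finset (Ix d → ZMod p)).filter
        (fun v => ∃ n, ev1 w' (st (cf d S) v n) = 0)).card ≤
        T * ((univ : Finset (Ix d → ZMod p)).filter (fun y => ev1 w' y = 0)).card := by
      convert card_bad' T hTpos S (fun j => (hS1 j).2) (fun j a ha => hQ2 a ((hS1 j).1 ha))
        (fun y => ev1 w' y = 0)
    have h1' := card_zero w' hw'0
    rw [ZMod.card, ← hD] at h1'
    have e0 : ((univ : Finset (Ix d → ZMod p)).filter
        (fun v => ∃ n, pv w (rv (cf d S)) (st (cf d S) v n) = 0)) =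
        ((univ : Finset (Ix d → ZMod p)).filter
          (fun v => ∃ n, ev1 w' (st (cf d S) v n) = 0)) := by
      apply Finset.filter_congr
      intro v _
      simp only [pv_eq]
      rfl
    have h2 : ((univ : Finset (Ix d → ZMod p)).filter
        (fun v => ∃ n, pv w (rv (cf d S)) (st (cf d S) v n) = 0)).card + (good S).card =
          p ^ D := by
      rw [hgood]
      simp only
      rw [Finset.card_filter_add_card_filter_not, Finset.card_univ, Fintype.card_fun,
        ZMod.card, ← hD]
    rw [e0] at h2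
    set bad := ((univ : Finset (Ix d → ZMod p)).filter
      (fun v => ∃ n, ev1 w' (st (cf d S) v n) = 0)).card with hbad
    have h3 : 2 * bad ≤ p ^ D := by
      have h4 : 2 * bad * p ≤ (p - 1) * p ^ D := by
        calc 2 * bad * p ≤ 2 * (T * ((univ : Finset (Ix d → ZMod p)).filter
                (fun y => ev1 w' y = 0)).card) * p :=
              Nat.mul_le_mul_right _ (Nat.mul_le_mul_left _ h1)
          _ = 2 * T * (((univ : Finset (Ix d → ZMod p)).filter
                (fun y => ev1 w' y = 0)).card * p) := by ring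
          _ ≤ 2 * T * (D * r * p ^ D) := Nat.mul_le_mul_left _ h1'
          _ = (2 * (D * r) * T) * p ^ D := by ring
          _ ≤ (p - 1) * p ^ D := Nat.mul_le_mul_right _ hDr
      have h5 : (p - 1) * p ^ D ≤ p ^ D * p := by
        rw [mul_comm]; exact Nat.mul_le_mul_left _ (Nat.sub_le _ _)
      exact Nat.le_of_mul_le_mul_right (h4.trans h5) (by omega)
    omega
  have hchoose1 : ∀ j, p ^ d j ≤ (2 * k) ^ d j * (d j).factorial * (Q.powersetCard (d j)).card := by
    intro j
    rw [Finset.card_powersetCard, hQ1]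
    have h1 := Nat.pow_sub_le_descFactorial T (d j)
    rw [Nat.descFactorial_eq_factorial_mul_choose] at h1
    have h2 : p ≤ 2 * k * (T + 1 - d j) := by
      have hpj := hp' j
      have h3 : p = k * T + 1 := by omega
      rcases Nat.eq_zero_or_pos (d j) with h0 | h0
      · rw [h0, Nat.sub_zero]
        have h10 : 2 * k * (T + 1) = 2 * (k * T) + 2 * k := by ring
        omega
      obtain ⟨d', hd'⟩ : ∃ d', d j = d' + 1 := ⟨d j - 1, by omega⟩
      rw [hd'] at hpj ⊢
      have h4 : d' + 1 ≤ T := by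
        by_contra hcon
        push Not at hcon
        have : k * T ≤ k * (d' + 1 - 1) := Nat.mul_le_mul_left _ (by omega)
        have h5 : 2 * k * (d' + 1) = 2 * (k * d') + 2 * k := by ring
        have h6 : k * (d' + 1 - 1) = k * d' := by rw [Nat.add_sub_cancel]
        omega
      obtain ⟨t, rfl⟩ : ∃ t, T = d' + 1 + t := ⟨T - (d' + 1), by omega⟩
      have h7 : d' + 1 + t + 1 - (d' + 1) = t + 1 := by omega
      rw [h7]
      have h8 : 2 * k * (d' + 1) = 2 * (k * d') + 2 * k := by ring
      have h9 : k * (d' + 1 + t) = k * d' + k + k * t := by ring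
      have h10 : 2 * k * (t + 1) = 2 * (k * t) + 2 * k := by ring
      rw [h9] at h3
      rw [h8] at hpj
      rw [h10]
      omega
    calc p ^ d j ≤ (2 * k * (T + 1 - d j)) ^ d j := Nat.pow_le_pow_left h2 _
      _ = (2 * k) ^ d j * (T + 1 - d j) ^ d j := by rw [mul_pow]
      _ ≤ (2 * k) ^ d j * ((d j).factorial * T.choose (d j)) := Nat.mul_le_mul_left _ h1
      _ = (2 * k) ^ d j * (d j).factorial * T.choose (d j) := by ring
  have hchoose : p ^ D ≤ (2 * k) ^ D * (∏ j, (d j).factorial) * A.card := by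
    calc p ^ D = ∏ j, p ^ d j := by rw [Finset.prod_pow_eq_pow_sum, hDs]
      _ ≤ ∏ j, ((2 * k) ^ d j * (d j).factorial * (Q.powersetCard (d j)).card) :=
          Finset.prod_le_prod' fun j _ => hchoose1 j
      _ = (2 * k) ^ D * (∏ j, (d j).factorial) * A.card := by
          rw [Finset.prod_mul_distrib, Finset.prod_mul_distrib, Finset.prod_pow_eq_pow_sum, hA,
            Fintype.card_piFinset, hDs]
  -- most of the `S` are in `F`
  have hFc : A.card ≤ F.card + Z := by
    have h1 : A.card = F.card + (A.filter (fun S => ¬ ev1 g (rv (cf d S)) ≠ 0)).card := by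
      rw [hF, Finset.card_filter_add_card_filter_not]
    rw [h1]
    apply Nat.add_le_add_left
    rw [hZ]
    apply Finset.card_le_card_of_injOn (fun S => rv (cf d S))
    · intro S hS
      rw [Finset.mem_coe, Finset.mem_filter] at hS
      rw [Finset.mem_coe, Finset.mem_filter]
      exact ⟨mem_univ _, not_not.1 hS.2⟩
    · intro S hS S' hS' h
      rw [Finset.mem_coe, Finset.mem_filter] at hS hS'
      apply cf_inj (fun j => (hA1 _ hS.1 j).2) (fun j => (hA1 _ hS'.1 j).2)
      rw [← rv_rv (cf d S), ← rv_rv (cf d S')]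
      exact congrArg rv h
  have hZ2 : 2 * Z ≤ A.card := by
    have h1 : 2 * Z * p ≤ A.card * p := by
      calc 2 * Z * p = 2 * (Z * p) := by ring
        _ ≤ 2 * (D * r * p ^ D) := Nat.mul_le_mul_left _ hZp
        _ = 2 * (D * r) * p ^ D := by ring
        _ ≤ k * p ^ D := Nat.mul_le_mul_right _ (by omega)
        _ ≤ k * ((2 * k) ^ D * (∏ j, (d j).factorial) * A.card) :=
            Nat.mul_le_mul_left _ hchoose
        _ = A.card * (k * ((2 * k) ^ D * ∏ j, (d j).factorial)) := by ring
        _ ≤ A.card * p := Nat.mul_le_mul_left _ hp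
    exact Nat.le_of_mul_le_mul_right h1 (by omega)
  have hF2 : A.card ≤ 2 * F.card := by omega
  have hsum : F.card * p ^ D ≤ 2 * ∑ S ∈ F, (good S).card := by
    rw [Finset.mul_sum, ← smul_eq_mul F.card]
    exact Finset.card_nsmul_le_sum _ _ _ hgoodcard
  calc p ^ (2 * D) = p ^ D * p ^ D := by rw [two_mul, pow_add]
    _ ≤ ((2 * k) ^ D * (∏ j, (d j).factorial) * A.card) * p ^ D :=
        Nat.mul_le_mul_right _ hchoose
    _ ≤ ((2 * k) ^ D * (∏ j, (d j).factorial) * (2 * F.card)) * p ^ D :=
        Nat.mul_le_mul_right _ (Nat.mul_le_mul_left _ hF2)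
    _ = 2 * ((2 * k) ^ D * (∏ j, (d j).factorial)) * (F.card * p ^ D) := by ring
    _ ≤ 2 * ((2 * k) ^ D * (∏ j, (d j).factorial)) * (2 * ∑ S ∈ F, (good S).card) :=
        Nat.mul_le_mul_left _ hsum
    _ = 4 * ((2 * k) ^ D * ∏ j, (d j).factorial) * ∑ S ∈ F, (good S).card := by ring
    _ ≤ _ := Nat.mul_le_mul_left _ hinj

end Pool.Agent.TH838.SK
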