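import Pool.Agent.TH838.SK.Uni

set_option autoImplicit false

/-!
Almost all systems of recurrences avoid all hypersurfaces of bounded degree and small height.
-/

namespace Pool.Agent.TH838.SK

open Filter Pool.Agent.H684R3.Smo Pool.Agent.H884R2.Sko Pool.Agent.H692R2.USS

/-- The sequence `n ↦ G(c, u(n))` for the polynomial `G` with coefficients `w`, the coefficient
vectors `c` and the sequences `u j`. -/
def val {s r : ℕ} {d : Fin s → ℕ} (w : (Ix d → Fin (r + 1)) × (Ix d → Fin (r + 1)) → ℤ)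
    (c : Ix d → ℤ) (u : Fin s → ℕ → ℤ) (n : ℕ) : ℤ :=
  pv w c (fun q => u q.1 (n + q.2))

/-- a prime `p ≤ Y` with `p ∤ v n` and `p ∣ v (n + p - 1) - v n` for all `n` -/
def Cert (Y : ℝ) (v : ℕ → ℤ) : Prop :=
  ∃ p : ℕ, p.Prime ∧ (p : ℝ) ≤ Y ∧ ∀ n, ¬ (p : ℤ) ∣ v n ∧ (p : ℤ) ∣ v (n + (p - 1)) - v n

/-- the sequences `u j` have coefficients `c` and initial values `a` -/
def Sys {s : ℕ} {d : Fin s → ℕ} (c a : Ix d → ℤ) (u : Fin s → ℕ → ℤ) : Prop :=
  ∀ j, IsSeq (fun i => c ⟨j, i⟩) (fun i => a ⟨j, i⟩) (u j)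

theorem sys_cast {s : ℕ} {d : Fin s → ℕ} (c a : Ix d → ℤ) (u : Fin s → ℕ → ℤ) (hu : Sys c a u)
    (p n : ℕ) : (fun q : Ix d => ((u q.1 (n + q.2) : ℤ) : ZMod p)) =
      st (fun q => ((rv c q : ℤ) : ZMod p)) (fun q => (a q : ZMod p)) n := by
  funext ⟨j, i⟩
  have h1 := (isSeq_iff _ _ (u j)).1 (hu j) (n + i)
  simp only
  rw [h1]
  have h2 := map_seq (Int.castRingHom (ZMod p)) (fun i => c ⟨j, Fin.rev i⟩) (fun i => a ⟨j, i⟩)
    (n + i)
  rw [eq_intCast] at h2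
  exact h2

theorem good_cert' {s r : ℕ} {d : Fin s → ℕ} (c a : Ix d → ℤ) (u : Fin s → ℕ → ℤ)
    (hu : Sys c a u) (w : (Ix d → Fin (r + 1)) × (Ix d → Fin (r + 1)) → ℤ) (p T k : ℕ)
    (hT : k * T = p - 1)
    (h : GoodW (p := p) T (fun e => (w e : ZMod p)) (fun q => ((rv c q : ℤ) : ZMod p))
      (fun q => (a q : ZMod p))) (n : ℕ) :
    ¬ (p : ℤ) ∣ val w c u n ∧ (p : ℤ) ∣ val w c u (n + (p - 1)) - val w c u n := by
  have hv : ∀ n, ((val w c u n : ℤ) : ZMod p) = pv (fun e => (w e : ZMod p))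
      (fun q => (c q : ZMod p)) (st (fun q => ((rv c q : ℤ) : ZMod p))
        (fun q => (a q : ZMod p)) n) := by
    intro n
    rw [← sys_cast c a u hu p n]
    unfold val
    rw [pv_cast]
  have hrv : rv (fun q => ((rv c q : ℤ) : ZMod p)) = fun q => ((c q : ℤ) : ZMod p) := by
    funext q
    simp [rv]
  have hper : ∀ m n, st (fun q => ((rv c q : ℤ) : ZMod p)) (fun q => (a q : ZMod p)) (n + m * T) =
      st (fun q => ((rv c q : ℤ) : ZMod p)) (fun q => (a q : ZMod p)) n := by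
    intro m
    induction m with
    | zero => intro n; rw [zero_mul, add_zero]
    | succ m ih =>
      intro n
      rw [Nat.succ_mul, ← add_assoc, h.1, ih]
  constructor
  · intro hn
    rw [← ZMod.intCast_zmod_eq_zero_iff_dvd, hv, ← hrv] at hn
    exact h.2 n hn
  · rw [← ZMod.intCast_zmod_eq_zero_iff_dvd, Int.cast_sub, hv, hv, ← hT, hper, sub_self]

/-- The content of a family of integers. -/
theorem exists_prim {J : Type} [Fintype J] (w : J → ℤ) (hw : w ≠ 0) :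
    ∃ (g : ℤ) (w' : J → ℤ), g ≠ 0 ∧ (∀ e, w e = g * w' e) ∧ (∀ e, |w' e| ≤ |w e|) ∧
      ∀ q : ℕ, q.Prime → ∃ e, ¬ (q : ℤ) ∣ w' e := by
  classical
  obtain ⟨e₀, he₀⟩ := Function.ne_iff.1 hw
  obtain ⟨w', h1, h2⟩ := Finset.extract_gcd w (s := (Finset.univ : Finset J)) ⟨e₀, Finset.mem_univ _⟩
  have hg : Finset.univ.gcd w ≠ 0 := by
    intro h
    rw [Finset.gcd_eq_zero_iff] at h
    exact he₀ (h e₀ (Finset.mem_univ _))
  refine ⟨Finset.univ.gcd w, w', hg, fun e => h1 e (Finset.mem_univ _), fun e => ?_, ?_⟩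
  · rw [h1 e (Finset.mem_univ _), abs_mul]
    have h3 : 1 ≤ |Finset.univ.gcd w| := Int.one_le_abs hg
    nlinarith [abs_nonneg (w' e)]
  · intro q hq
    by_contra hcon
    push Not at hcon
    have h3 : (q : ℤ) ∣ Finset.univ.gcd w' := Finset.dvd_gcd fun e _ => hcon e
    rw [h2] at h3
    have h4 : q ∣ 1 := by exact_mod_cast h3
    exact hq.one_lt.ne' (Nat.dvd_one.1 h4)

/-- number of integral vectors with entries at most `X` -/
theorem card_small {J : Type} [Fintype J] [DecidableEq J] (X : ℝ) (hX : 1 ≤ X) :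
    (((Fintype.piFinset fun _ : J => Finset.Icc (-⌊X⌋) ⌊X⌋).card : ℕ) : ℝ) ≤
      (3 * X) ^ Fintype.card J := by
  rw [Fintype.card_piFinset, Finset.prod_const, Finset.card_univ, Int.card_Icc]
  push_cast
  have h1 : (0 : ℤ) ≤ ⌊X⌋ := Int.floor_nonneg.2 (by linarith)
  have h2 : (⌊X⌋ : ℝ) ≤ X := Int.floor_le X
  have h3 : (((⌊X⌋ + 1 - -⌊X⌋).toNat : ℕ) : ℝ) = 2 * (⌊X⌋ : ℝ) + 1 := by
    have h4 : (((⌊X⌋ + 1 - -⌊X⌋).toNat : ℕ) : ℤ) = 2 * ⌊X⌋ + 1 := by
      rw [Int.toNat_of_nonneg (by omega)]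
      ring
    rw [← Int.cast_natCast, h4]
    push_cast
    ring
  rw [h3]
  apply pow_le_pow_left₀
  · have : (0 : ℝ) ≤ (⌊X⌋ : ℝ) := by exact_mod_cast h1
    linarith
  · linarith

/-- For every system of sequences with the data `v` and every nonzero polynomial with coefficients
bounded by `X`: no zero, and a certificate if the coefficients have no common divisor. -/
def Easy {s : ℕ} (d : Fin s → ℕ) (r : ℕ) (X Y : ℝ) (v : Ix d ⊕ Ix d → ℤ) : Prop :=
  ∀ u, Sys (fun q => v (Sum.inl q)) (fun q => v (Sum.inr q)) u →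
    ∀ w : (Ix d → Fin (r + 1)) × (Ix d → Fin (r + 1)) → ℤ, w ≠ 0 → (∀ e, |(w e : ℝ)| ≤ X) →
      (∀ n, val w (fun q => v (Sum.inl q)) u n ≠ 0) ∧
      ((∀ q : ℕ, q.Prime → ∃ e, ¬ (q : ℤ) ∣ w e) →
        Cert Y (val w (fun q => v (Sum.inl q)) u))

theorem main (s r : ℕ) (d : Fin s → ℕ) : ∃ A δ : ℝ, 0 < A ∧ 0 < δ ∧ ∃ H₀ : ℕ,
    ∀ H : ℕ, H₀ ≤ H → ∀ b : Ix d ⊕ Ix d → ℤ,
      (Nat.card {v : Ix d ⊕ Ix d → ℤ // v ∈ bx b H ∧
        ¬ Easy d r ((H : ℝ) ^ δ) (Real.log H ^ A) v} : ℝ) ≤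
        (2 * (H : ℝ) + 1) ^ Fintype.card (Ix d ⊕ Ix d) * (H : ℝ) ^ (-δ) := by
  classical
  set D : ℕ := Fintype.card (Ix d) with hD
  set k : ℕ := 2 * (D * r + 1) with hk
  set M : ℕ := (2 * k) ^ D * ∏ j, (d j).factorial with hM
  have hMpos : 0 < M := by
    apply Nat.mul_pos (pow_pos (by omega) _)
    exact Finset.prod_pos fun j _ => Nat.factorial_pos _
  set p₀ : ℕ := k * M + ∑ j, 2 * k * d j with hp₀
  obtain ⟨θ, hθ, hcount⟩ := primes_one k (by omega) p₀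
  set P : ℕ → Prop := fun p => p.Prime ∧ p₀ ≤ p ∧ k ∣ p - 1 with hP
  set κ : ℝ := 1 / (4 * M : ℕ) with hκ
  have hκ0 : 0 < κ := by positivity
  set A : ℝ := 2 / θ with hA
  have hA0 : 0 < A := by positivity
  have hAθ : 1 < A * θ := by
    have : A * θ = 2 := by rw [hA]; field_simp
    rw [this]; norm_num
  obtain ⟨δ₀, hδ₀, H₁, hmain⟩ := t5u (t4 (t3 t1 t2)) (Ix d ⊕ Ix d) P κ θ A hκ0 hθ hA0 hAθ hcount
  let J : Type := (Ix d → Fin (r + 1)) × (Ix d → Fin (r + 1))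
  set N : ℕ := Fintype.card J with hN
  set δ : ℝ := δ₀ / (2 * (N + 1)) with hδ
  have hδ0 : 0 < δ := by positivity
  -- `3 ^ N ≤ H ^ (δ₀ / 2)` for large `H`
  have hev : ∀ᶠ H : ℕ in Filter.atTop, (3 : ℝ) ^ N ≤ (H : ℝ) ^ (δ₀ / 2) := by
    have : Filter.Tendsto (fun y : ℕ => (y : ℝ) ^ (δ₀ / 2)) Filter.atTop Filter.atTop :=
      (tendsto_rpow_atTop (by positivity)).comp tendsto_natCast_atTop_atTop
    exact this.eventually_ge_atTop _
  obtain ⟨H₂, hH₂⟩ := Filter.eventually_atTop.1 hev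
  refine ⟨A, δ, hA0, hδ0, max 1 (max H₁ H₂), fun H hH b => ?_⟩
  have hH1 : 1 ≤ H := (le_max_left _ _).trans hH
  have hHH₁ : H₁ ≤ H := (le_max_left _ _).trans ((le_max_right _ _).trans hH)
  have hHH₂ : H₂ ≤ H := (le_max_right _ _).trans ((le_max_right _ _).trans hH)
  have hHr : (1 : ℝ) ≤ H := by exact_mod_cast hH1
  have hHr0 : (0 : ℝ) < H := by linarith
  set X : ℝ := (H : ℝ) ^ δ with hX
  have hX1 : 1 ≤ X := Real.one_le_rpow hHr hδ0.le
  -- the good sets for `w`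
  let G : (J → ℤ) → ∀ p : ℕ, Set (Ix d ⊕ Ix d → ZMod p) := fun w p =>
    {x | GoodW (p := p) ((p - 1) / k) (fun e => (w e : ZMod p)) (rv fun q => x (Sum.inl q))
      (fun q => x (Sum.inr q))}
  have hG : ∀ w : J → ℤ, (∀ q : ℕ, q.Prime → ∃ e, ¬ (q : ℤ) ∣ w e) → ∀ p, P p → p.Prime ∧
      κ * (p : ℝ) ^ Fintype.card (Ix d ⊕ Ix d) ≤ (Nat.card (G w p) : ℝ) := by
    intro w hw p hp
    have hpp : Fact p.Prime := ⟨hp.1⟩
    refine ⟨hp.1, ?_⟩
    have hT : k * ((p - 1) / k) = p - 1 := Nat.mul_div_cancel' hp.2.2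
    have hwp : (fun e => (w e : ZMod p)) ≠ 0 := by
      obtain ⟨e, he⟩ := hw p hp.1
      intro h
      apply he
      rw [← ZMod.intCast_zmod_eq_zero_iff_dvd]
      exact congrFun h e
    have hp1 : k * ((2 * k) ^ D * ∏ j, (d j).factorial) ≤ p := by
      have := hp.2.1
      rw [hp₀, hM] at this
      omega
    have hp2 : ∀ j, 2 * k * d j ≤ p := by
      intro j
      have h1 := hp.2.1
      have h2 : 2 * k * d j ≤ ∑ j, 2 * k * d j :=
        Finset.single_le_sum (f := fun j => 2 * k * d j) (fun _ _ => Nat.zero_le _)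
          (Finset.mem_univ j)
      omega
    have h1 := card_goodW p d r k ((p - 1) / k) D hD hk hT hp1 hp2 (fun e => (w e : ZMod p)) hwp
    have h2 : Nat.card (G w p) =
        ((Finset.univ : Finset ((Ix d → ZMod p) × (Ix d → ZMod p))).filter
          (fun x => GoodW ((p - 1) / k) (fun e => (w e : ZMod p)) x.1 x.2)).card := by
      rw [← Fintype.card_subtype, ← Nat.card_eq_fintype_card]
      apply Nat.card_congr
      refine
        { toFun := fun x => ⟨(rv fun q => x.1 (Sum.inl q), fun q => x.1 (Sum.inr q)), x.2⟩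
          invFun := fun x => ⟨Sum.elim (rv x.1.1) x.1.2, ?_⟩
          left_inv := fun x => ?_
          right_inv := fun x => ?_ }
      · have := x.2
        simp only [G, Set.mem_ofPred_eq, Sum.elim_inl, Sum.elim_inr]
        change GoodW _ _ (rv (rv x.1.1)) _
        rw [rv_rv]
        exact this
      · apply Subtype.ext
        funext q
        rcases q with q | q
        · simp [rv]
        · rfl
      · apply Subtype.ext
        apply Prod.ext
        · simp only [Sum.elim_inl]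
          exact rv_rv _
        · rfl
    have h3 : Fintype.card (Ix d ⊕ Ix d) = 2 * D := by
      rw [Fintype.card_sum, ← hD]; ring
    rw [h2, h3, hκ, one_div, inv_mul_le_iff₀ (by positivity)]
    exact_mod_cast h1
  -- union bound
  set W : Finset (J → ℤ) := (Fintype.piFinset fun _ : J => Finset.Icc (-⌊X⌋) ⌊X⌋).filter
    (fun w => ∀ q : ℕ, q.Prime → ∃ e, ¬ (q : ℤ) ∣ w e) with hW
  let B : (J → ℤ) → Finset (Ix d ⊕ Ix d → ℤ) := fun w => (bx b H).filter
    (fun v => ∀ p, P p → (p : ℝ) ≤ Real.log H ^ A → (fun i => (v i : ZMod p)) ∉ G w p)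
  have hB : ∀ w ∈ W, ((B w).card : ℝ) ≤
      (2 * (H : ℝ) + 1) ^ Fintype.card (Ix d ⊕ Ix d) * (H : ℝ) ^ (-δ₀) := by
    intro w hw
    rw [hW, Finset.mem_filter] at hw
    have h1 := hmain (G w) (hG w hw.2) H hHH₁ b
    have h2 : (B w).card = Nat.card {v : Ix d ⊕ Ix d → ℤ // v ∈ bx b H ∧ ∀ p, P p →
        (p : ℝ) ≤ Real.log H ^ A → (fun i => (v i : ZMod p)) ∉ G w p} := by
      rw [← Nat.card_eq_finsetCard]
      apply Nat.card_congr
      apply Equiv.subtypeEquivRight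
      intro v
      simp only [B, Finset.mem_filter]
    rw [h2]
    exact h1
  have hsub : ∀ v : Ix d ⊕ Ix d → ℤ, v ∈ bx b H → ¬ Easy d r X (Real.log H ^ A) v →
      v ∈ W.biUnion B := by
    intro v hv hne
    by_contra hcon
    apply hne
    rw [Finset.mem_biUnion] at hcon
    push Not at hcon
    have hprim : ∀ w : J → ℤ, (∀ e, |(w e : ℝ)| ≤ X) →
        (∀ q : ℕ, q.Prime → ∃ e, ¬ (q : ℤ) ∣ w e) → ∀ u,
        Sys (fun q => v (Sum.inl q)) (fun q => v (Sum.inr q)) u →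
        Cert (Real.log H ^ A) (val w (fun q => v (Sum.inl q)) u) := by
      intro w hwX hw u hu
      have hwW : w ∈ W := by
        rw [hW, Finset.mem_filter]
        refine ⟨?_, hw⟩
        rw [Fintype.mem_piFinset]
        intro e
        rw [Finset.mem_Icc]
        have h1 := abs_le.1 (hwX e)
        constructor
        · have h2 : -(w e) ≤ ⌊X⌋ := by
            rw [Int.le_floor]
            push_cast
            linarith [h1.1]
          linarith
        · rw [Int.le_floor]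
          exact h1.2
      have h1 := hcon w hwW
      simp only [B, Finset.mem_filter, not_and] at h1
      have h2 := h1 hv
      push Not at h2
      obtain ⟨p, hp, hpA, hpG⟩ := h2
      exact ⟨p, hp.1, hpA, fun n => good_cert' _ _ u hu w p ((p - 1) / k) k
        (Nat.mul_div_cancel' hp.2.2) (by
          have h3 : GoodW (p := p) ((p - 1) / k) (fun e => (w e : ZMod p))
            (rv fun q => ((v (Sum.inl q) : ℤ) : ZMod p)) (fun q => (v (Sum.inr q) : ZMod p)) := hpG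
          exact h3) n⟩
    intro u hu w hw0 hwX
    refine ⟨?_, fun h => hprim w hwX h u hu⟩
    obtain ⟨g, w', hg, hgw, hle, hprim'⟩ := exists_prim w hw0
    obtain ⟨p, -, -, hp⟩ := hprim w' (fun e => le_trans (by exact_mod_cast hle e) (hwX e)) hprim'
      u hu
    intro n hn
    have h1 : val w (fun q => v (Sum.inl q)) u n = g * val w' (fun q => v (Sum.inl q)) u n := by
      unfold val pv
      rw [Finset.mul_sum]
      refine Finset.sum_congr rfl fun e _ => ?_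
      rw [hgw e]
      ring
    rw [h1] at hn
    have h2 := (mul_eq_zero.1 hn).resolve_left hg
    apply (hp n).1
    rw [h2]
    exact dvd_zero _
  have hfin : Nat.card {v : Ix d ⊕ Ix d → ℤ // v ∈ bx b H ∧
      ¬ Easy d r X (Real.log H ^ A) v} ≤ (W.biUnion B).card := by
    rw [← Nat.card_eq_finsetCard]
    exact Nat.card_le_card_of_injective
      (fun v : {v : Ix d ⊕ Ix d → ℤ // v ∈ bx b H ∧ ¬ Easy d r X (Real.log H ^ A) v} =>
        (⟨v.1, hsub v.1 v.2.1 v.2.2⟩ : {v // v ∈ W.biUnion B}))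
      (fun v v' h => Subtype.ext (congrArg (fun z => z.1) h))
  have hWc : (W.card : ℝ) ≤ (3 * X) ^ N := by
    refine le_trans ?_ (card_small (J := J) X hX1)
    exact Nat.cast_le.2 (Finset.card_filter_le _ _)
  have hsum : ((W.biUnion B).card : ℝ) ≤
      W.card * ((2 * (H : ℝ) + 1) ^ Fintype.card (Ix d ⊕ Ix d) * (H : ℝ) ^ (-δ₀)) := by
    calc ((W.biUnion B).card : ℝ) ≤ ((∑ w ∈ W, (B w).card : ℕ) : ℝ) := by
          exact_mod_cast Finset.card_biUnion_le
      _ = ∑ w ∈ W, ((B w).card : ℝ) := by push_cast; rfl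
      _ ≤ ∑ _w ∈ W, ((2 * (H : ℝ) + 1) ^ Fintype.card (Ix d ⊕ Ix d) * (H : ℝ) ^ (-δ₀)) :=
          Finset.sum_le_sum hB
      _ = _ := by rw [Finset.sum_const, nsmul_eq_mul]
  have hS : (0 : ℝ) ≤ (2 * (H : ℝ) + 1) ^ Fintype.card (Ix d ⊕ Ix d) := by positivity
  have hpow : (3 * X) ^ N * (H : ℝ) ^ (-δ₀) ≤ (H : ℝ) ^ (-δ) := by
    have h1 := hH₂ H hHH₂
    have h2 : X ^ N = (H : ℝ) ^ (δ * N) := by
      rw [hX, ← Real.rpow_natCast, ← Real.rpow_mul hHr0.le]
    rw [mul_pow, h2]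
    calc (3 : ℝ) ^ N * (H : ℝ) ^ (δ * N) * (H : ℝ) ^ (-δ₀) ≤
          (H : ℝ) ^ (δ₀ / 2) * (H : ℝ) ^ (δ * N) * (H : ℝ) ^ (-δ₀) := by gcongr
      _ = (H : ℝ) ^ (δ₀ / 2 + δ * N + -δ₀) := by
          rw [Real.rpow_add hHr0, Real.rpow_add hHr0]
      _ = (H : ℝ) ^ (-δ) := by
          congr 1
          rw [hδ]
          field_simp
          ring
  calc (Nat.card {v : Ix d ⊕ Ix d → ℤ // v ∈ bx b H ∧
        ¬ Easy d r X (Real.log H ^ A) v} : ℝ) ≤ ((W.biUnion B).card : ℝ) := by exact_mod_cast hfin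
    _ ≤ W.card * ((2 * (H : ℝ) + 1) ^ Fintype.card (Ix d ⊕ Ix d) * (H : ℝ) ^ (-δ₀)) := hsum
    _ ≤ (3 * X) ^ N * ((2 * (H : ℝ) + 1) ^ Fintype.card (Ix d ⊕ Ix d) * (H : ℝ) ^ (-δ₀)) := by
        gcongr
    _ = (2 * (H : ℝ) + 1) ^ Fintype.card (Ix d ⊕ Ix d) * ((3 * X) ^ N * (H : ℝ) ^ (-δ₀)) := by
        ring
    _ ≤ _ := mul_le_mul_of_nonneg_left hpow hS

end Pool.Agent.TH838.SK
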