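import Pool.Agent.TH838.SK.Count
import Pool.Agent.H684R3.Smo.Done

set_option autoImplicit false

/-!
The sieve, uniform in the sets of residues, and the primes congruent to one.
-/

namespace Pool.Agent.TH838.SK

open Filter Pool.Agent.H684R3.Smo Pool.Agent.H884R2.Sko Pool.Agent.H692R2.USS

/-- The asymptotic form of the counting bound, uniform in the sets `G p`. -/
theorem t5u (h4 : T4) (ι : Type) [Fintype ι] [DecidableEq ι] (P : ℕ → Prop) (κ θ A : ℝ)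
    (hκ : 0 < κ) (hθ : 0 < θ) (hA : 0 < A) (hAθ : 1 < A * θ)
    (hN : ∃ y₀ : ℕ, ∀ y : ℕ, y₀ ≤ y → (y : ℝ) ^ θ ≤ (Nat.card {p : ℕ // P p ∧ p ≤ y} : ℝ)) :
    ∃ δ : ℝ, 0 < δ ∧ ∃ H₀ : ℕ, ∀ G : ∀ p : ℕ, Set (ι → ZMod p),
      (∀ p, P p → p.Prime ∧ κ * (p : ℝ) ^ (Fintype.card ι) ≤ (Nat.card (G p) : ℝ)) →
      ∀ H : ℕ, H₀ ≤ H → ∀ b : ι → ℤ,
      (Nat.card {v : ι → ℤ // v ∈ bx b H ∧ ∀ p, P p → (p : ℝ) ≤ Real.log H ^ A →
        (fun i => (v i : ZMod p)) ∉ G p} : ℝ) ≤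
        (2 * (H : ℝ) + 1) ^ (Fintype.card ι) * (H : ℝ) ^ (-δ) := by
  obtain ⟨y₀, hy₀⟩ := hN
  set ε : ℝ := (A * θ - 1) / 2 with hε
  have hε0 : 0 < ε := by rw [hε]; linarith
  set η : ℝ := 1 / (16 * A) with hη
  have hη0 : 0 < η := by positivity
  set δ : ℝ := min (ε * η / 8) (1 / 2) with hδ
  have hδ0 : 0 < δ := lt_min (by positivity) (by norm_num)
  have hlogH : Tendsto (fun H : ℕ => Real.log (H : ℝ)) atTop atTop :=
    Real.tendsto_log_atTop.comp tendsto_natCast_atTop_atTop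
  have hev := hlogH.eventually (t5_ev y₀ κ θ A ε η
    ((Fintype.card ι : ℝ) * 2 ^ (Fintype.card ι) * 2) hA hε0 hη0)
  obtain ⟨H₀, hH₀⟩ := eventually_atTop.1 hev
  refine ⟨δ, hδ0, H₀, fun G hP H hH b => ?_⟩
  obtain ⟨c1, c2, c3, c4, c5, c6, c7, c8, c9⟩ := hH₀ H hH
  have ht0 : 0 < Real.log (H : ℝ) := lt_of_lt_of_le (Real.exp_pos 1) c1
  have hHpos : (0 : ℝ) < H := by
    rcases Nat.eq_zero_or_pos H with h | h
    · subst h; simp at ht0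
    · exact_mod_cast h
  obtain ⟨m, K, y, hyt, hmK, hK, p1, p2, p3⟩ := t5_param y₀ κ θ A ε η δ (Real.log H)
    (fun y => Nat.card {p : ℕ // P p ∧ p ≤ y}) hκ hθ hA hε0 (by rw [hε]; ring) hη
    (min_le_left _ _) hδ0 hy₀ c1 c2 c3 c4 c5 c6 c7 c8
  have hfin : Finite {p : ℕ // P p ∧ p ≤ y} :=
    (Set.Finite.subset (Set.finite_le_nat y) (fun p hp => hp.2) :
      ({p : ℕ | P p ∧ p ≤ y}).Finite).to_subtype
  obtain ⟨f⟩ : Nonempty (Fin m × Fin K ↪ {p : ℕ // P p ∧ p ≤ y}) := by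
    have := Fintype.ofFinite {p : ℕ // P p ∧ p ≤ y}
    refine Function.Embedding.nonempty_of_card_le ?_
    rw [Fintype.card_prod, Fintype.card_fin, Fintype.card_fin, ← Nat.card_eq_fintype_card]
    exact hmK
  have hexp : Real.exp (Real.log (H : ℝ)) = H := Real.exp_log hHpos
  have hyH : y ^ (2 * m) ≤ 2 * H + 1 := by
    have h1 : (y : ℝ) ^ (2 * m) ≤ 2 * H + 1 := by
      refine le_trans p1 ?_
      have h2 : Real.exp (Real.log (H : ℝ) / 8) ≤ Real.exp (Real.log (H : ℝ)) :=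
        Real.exp_le_exp.2 (by linarith)
      rw [hexp] at h2
      linarith
    exact_mod_cast h1
  have hmain := h4 ι G κ hκ m K y H (fun x => ((f x : {p : ℕ // P p ∧ p ≤ y}) : ℕ))
    (Subtype.val_injective.comp f.injective)
    (fun x => ⟨(hP _ (f x).2.1).1, (f x).2.2, (hP _ (f x).2.1).2⟩) hyH b
  have hfin2 : Finite {v : ι → ℤ // v ∈ bx b H ∧
      ∀ x : Fin m × Fin K, (fun i => (v i : ZMod ((f x : {p : ℕ // P p ∧ p ≤ y}) : ℕ))) ∉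
        G ((f x : {p : ℕ // P p ∧ p ≤ y}) : ℕ)} :=
    Finite.of_injective (fun v => (⟨v.1, v.2.1⟩ : {v // v ∈ bx b H})) (by
      intro v w hvw
      exact Subtype.ext (congrArg (fun z : {v // v ∈ bx b H} => z.1) hvw))
  have hcard : (Nat.card {v : ι → ℤ // v ∈ bx b H ∧ ∀ p, P p → (p : ℝ) ≤ Real.log H ^ A →
      (fun i => (v i : ZMod p)) ∉ G p} : ℝ) ≤
      (Nat.card {v : ι → ℤ // v ∈ bx b H ∧
      ∀ x : Fin m × Fin K, (fun i => (v i : ZMod ((f x : {p : ℕ // P p ∧ p ≤ y}) : ℕ))) ∉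
        G ((f x : {p : ℕ // P p ∧ p ≤ y}) : ℕ)} : ℝ) := by
    have : Nat.card {v : ι → ℤ // v ∈ bx b H ∧ ∀ p, P p → (p : ℝ) ≤ Real.log H ^ A →
      (fun i => (v i : ZMod p)) ∉ G p} ≤ Nat.card {v : ι → ℤ // v ∈ bx b H ∧
      ∀ x : Fin m × Fin K, (fun i => (v i : ZMod ((f x : {p : ℕ // P p ∧ p ≤ y}) : ℕ))) ∉
        G ((f x : {p : ℕ // P p ∧ p ≤ y}) : ℕ)} := by
      refine Nat.card_le_card_of_injective (fun v => ⟨v.1, v.2.1, fun x => v.2.2 _ (f x).2.1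
        (le_trans (by exact_mod_cast (f x).2.2) hyt)⟩) ?_
      intro v w hvw
      have h5 := Subtype.ext_iff.1 hvw
      exact Subtype.ext h5
    exact_mod_cast this
  refine t5_final (Fintype.card ι) m K y _ (2 * (H : ℝ) + 1) κ δ (Real.log H) H hκ hK
    (min_le_right _ _) ht0 hexp.symm (by linarith) c9 p1 p2 p3 ?_
  exact le_trans (mul_le_mul_of_nonneg_right hcard (by positivity)) hmain


/-- polynomially many primes congruent to `1` modulo `k` -/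
theorem primes_one (k : ℕ) (hk : 1 ≤ k) (p₀ : ℕ) : ∃ θ : ℝ, 0 < θ ∧ ∃ y₁ : ℕ, ∀ y : ℕ, y₁ ≤ y →
    (y : ℝ) ^ θ ≤ (Nat.card {p : ℕ // (p.Prime ∧ p₀ ≤ p ∧ k ∣ p - 1) ∧ p ≤ y} : ℝ) := by
  obtain ⟨K, hF, hNF, hK⟩ := splitField_one (Polynomial.cyclotomic k ℤ)
    (Polynomial.cyclotomic.monic k ℤ)
  obtain ⟨θ, hθ, y₀, hsup⟩ := @t8 K hF hNF
  set q₀ : ℕ := max p₀ (k + 1) with hq₀
  have hcong : ∀ p : ℕ, p.Prime → k + 1 ≤ p →
      ((Polynomial.cyclotomic k ℤ).map (Int.castRingHom (ZMod p))).Splits → k ∣ p - 1 := by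
    intro p hp hkp hs
    haveI : Fact p.Prime := ⟨hp⟩
    rw [Polynomial.map_cyclotomic_int] at hs
    have hdeg : (Polynomial.cyclotomic k (ZMod p)).degree ≠ 0 := by
      rw [Polynomial.degree_cyclotomic]
      have := Nat.totient_pos.2 hk
      exact_mod_cast this.ne'
    obtain ⟨ζ, hζ⟩ := hs.exists_eval_eq_zero hdeg
    haveI : NeZero ((k : ℕ) : ZMod p) := ⟨by
      intro h
      rw [ZMod.natCast_eq_zero_iff] at h
      have := Nat.le_of_dvd (by omega) h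
      omega⟩
    have hprim : IsPrimitiveRoot ζ k := Polynomial.isRoot_cyclotomic_iff.1 hζ
    have hζ0 : ζ ≠ 0 := hprim.ne_zero (by omega)
    exact hprim.dvd_of_pow_eq_one _ (ZMod.pow_card_sub_one_eq_one hζ0)
  have hev : ∀ᶠ y : ℕ in Filter.atTop, (q₀ : ℝ) + 1 ≤ (y : ℝ) ^ (θ / 2) := by
    have : Filter.Tendsto (fun y : ℕ => (y : ℝ) ^ (θ / 2)) Filter.atTop Filter.atTop :=
      (tendsto_rpow_atTop (by positivity)).comp tendsto_natCast_atTop_atTop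
    exact this.eventually_ge_atTop _
  obtain ⟨y₂, hy₂⟩ := Filter.eventually_atTop.1 hev
  refine ⟨θ / 2, by positivity, max y₀ y₂, fun y hy => ?_⟩
  have h1 := hsup y ((le_max_left _ _).trans hy)
  have h2 := hy₂ y ((le_max_right _ _).trans hy)
  have hfinP : Finite {p : ℕ // (p.Prime ∧ p₀ ≤ p ∧ k ∣ p - 1) ∧ p ≤ y} :=
    Set.Finite.subset (Set.finite_Iic y) (fun p hp => hp.2)
  have h3 : Nat.card {p : ℕ // (p.Prime ∧ @HasDegOne K hF hNF p) ∧ p ≤ y} ≤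
      Nat.card {p : ℕ // (p.Prime ∧ p₀ ≤ p ∧ k ∣ p - 1) ∧ p ≤ y} + q₀ := by
    have e : Nat.card ({p : ℕ // (p.Prime ∧ p₀ ≤ p ∧ k ∣ p - 1) ∧ p ≤ y} ⊕ Fin q₀) =
        Nat.card {p : ℕ // (p.Prime ∧ p₀ ≤ p ∧ k ∣ p - 1) ∧ p ≤ y} + q₀ := by
      rw [Nat.card_sum, Nat.card_eq_fintype_card (α := Fin q₀), Fintype.card_fin]
    rw [← e]
    apply Nat.card_le_card_of_injective (fun p : {p : ℕ // (p.Prime ∧ @HasDegOne K hF hNF p) ∧
      p ≤ y} => if h : p.1 < q₀ then Sum.inr (⟨p.1, h⟩ : Fin q₀) else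
        Sum.inl (⟨p.1, ⟨p.2.1.1, (le_max_left _ _).trans (not_lt.1 h),
          hcong p.1 p.2.1.1 ((le_max_right _ _).trans (not_lt.1 h))
            (hK p.1 p.2.1.1 p.2.1.2)⟩, p.2.2⟩ :
          {p : ℕ // (p.Prime ∧ p₀ ≤ p ∧ k ∣ p - 1) ∧ p ≤ y}))
    intro x x' h
    apply Subtype.ext
    simp only at h
    split_ifs at h with h4 h5 h5
    · simpa using h
    · simpa using h
  have h4 : ((Nat.card {p : ℕ // (p.Prime ∧ @HasDegOne K hF hNF p) ∧ p ≤ y} : ℕ) : ℝ) ≤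
      (Nat.card {p : ℕ // (p.Prime ∧ p₀ ≤ p ∧ k ∣ p - 1) ∧ p ≤ y} : ℝ) + q₀ := by
    exact_mod_cast h3
  have h5 : (y : ℝ) ^ θ = (y : ℝ) ^ (θ / 2) * (y : ℝ) ^ (θ / 2) := by
    rcases Nat.eq_zero_or_pos y with rfl | hy0
    · rw [Nat.cast_zero, Real.zero_rpow hθ.ne', Real.zero_rpow (by positivity)]; ring
    · rw [← Real.rpow_add (by exact_mod_cast hy0)]; congr 1; ring
  have h6 : (0 : ℝ) ≤ (q₀ : ℝ) := by positivity
  nlinarith

end Pool.Agent.TH838.SK
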